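import Pool.Agent.Lib.MP_b5021c_nt.E1.H80.Iface
import Pool.Agent.Lib.MP_b5021c_nt.E1.Flg

/-!
# MP_b5021c_nt, E1R_UMR: the unimodular reduction
-/

set_option autoImplicit false

namespace Pool.Agent.B5.Nr.H84

open Submodule Module
open scoped LaurentPolynomial

variable {V : Type} [AddCommGroup V] [Module ℚ V]

omit [Module ℚ V] in
lemma vz_eq (c : V →₀ RO ℤ) (z : Circle) (χ : AddChar V Circle) :
    vz c z χ = E1.val (c.mapRange (evR z) (map_zero _)) χ := by
  unfold vz E1.val
  rw [Finsupp.sum_mapRange_index]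
  intro a
  rw [zero_mul]

omit [AddCommGroup V] [Module ℚ V] in
lemma filter_map (c : V →₀ RO ℤ) (z : Circle) (p : V → Prop) [DecidablePred p] :
    (c.filter p).mapRange (evR z) (map_zero _) = (c.mapRange (evR z) (map_zero _)).filter p := by
  ext v
  rw [Finsupp.mapRange_apply, Finsupp.filter_apply, Finsupp.filter_apply, Finsupp.mapRange_apply]
  by_cases h : p v
  · rw [if_pos h, if_pos h]
  · rw [if_neg h, if_neg h, map_zero]

open Classical in
lemma np_filter {c : V →₀ RO ℤ} (hc : NP c) (l : Dual ℚ V) :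
    NP (c.filter fun v => ∃ n : ℤ, l v = n) := by
  refine ⟨fun v => ?_, fun z χ => ?_⟩
  · by_cases h : ∃ n : ℤ, l v = n
    · have h' : ∃ n : ℤ, l (-v) = n := by
        obtain ⟨n, hn⟩ := h
        exact ⟨-n, by rw [map_neg, hn]; push_cast; ring⟩
      rw [Finsupp.filter_apply, Finsupp.filter_apply, if_pos h', if_pos h]
      exact hc.1 v
    · have h' : ¬ ∃ n : ℤ, l (-v) = n := by
        rintro ⟨n, hn⟩
        refine h ⟨-n, ?_⟩
        rw [map_neg] at hn
        push_cast
        rw [← hn]
        ring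
      rw [Finsupp.filter_apply, Finsupp.filter_apply, if_neg h', if_neg h, map_zero]
  · rw [vz_eq, filter_map]
    refine E1.avg (g := 0) (fun ψ => ?_) l χ
    rw [← vz_eq]
    exact hc.2 z ψ

open Classical in
lemma np_filter_finset {c : V →₀ RO ℤ} (hc : NP c) (l : V → Dual ℚ V) (S : Finset V) :
    NP (c.filter fun v => ∀ b ∈ S, ∃ n : ℤ, l b v = n) := by
  induction S using Finset.induction_on with
  | empty =>
    have : (c.filter fun v => ∀ b ∈ (∅ : Finset V), ∃ n : ℤ, l b v = n) = c := by
      ext1 v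
      rw [Finsupp.filter_apply_pos]
      simp
    rw [this]
    exact hc
  | insert a S ha ih =>
    have h := np_filter ih (l a)
    have : (c.filter fun v => ∀ b ∈ insert a S, ∃ n : ℤ, l b v = n) =
        ((c.filter fun v => ∀ b ∈ S, ∃ n : ℤ, l b v = n).filter fun v => ∃ n : ℤ, l a v = n) := by
      ext1 v
      rw [Finsupp.filter_apply, Finsupp.filter_apply, Finsupp.filter_apply]
      by_cases h1 : ∃ n : ℤ, l a v = n
      · rw [if_pos h1]
        by_cases h2 : ∀ b ∈ S, ∃ n : ℤ, l b v = n
        · rw [if_pos h2, if_pos]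
          intro b hb
          rcases Finset.mem_insert.mp hb with rfl | hb
          · exact h1
          · exact h2 b hb
        · rw [if_neg h2, if_neg]
          intro h3
          exact h2 fun b hb => h3 b (Finset.mem_insert_of_mem hb)
      · rw [if_neg h1, if_neg]
        intro h3
        exact h1 (h3 a (Finset.mem_insert_self a S))
    rw [this]
    exact h

lemma exists_dual {B : Set V} (hB : LinearIndepOn ℚ id B) (β : V) (hβ : β ∈ B) :
    ∃ l : Dual ℚ V, l β = 1 ∧ ∀ b ∈ B, b ≠ β → l b = 0 := by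
  let b := Basis.extend hB
  have hsub : B ⊆ hB.extend (Set.subset_univ _) := hB.subset_extend _
  have key : ∀ x (hx : x ∈ B), b ⟨x, hsub hx⟩ = x := fun x hx => Basis.extend_apply_self hB _
  refine ⟨b.coord ⟨β, hsub hβ⟩, ?_, ?_⟩
  · have h := b.repr_self ⟨β, hsub hβ⟩
    rw [key β hβ] at h
    rw [Basis.coord_apply, h, Finsupp.single_eq_same]
  · intro x hx hne
    have h := b.repr_self ⟨x, hsub hx⟩
    rw [key x hx] at h
    rw [Basis.coord_apply, h, Finsupp.single_eq_of_ne]
    intro h'
    exact hne (congrArg Subtype.val h').symm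

/-- A functional with integral values on `B` has integral values on the subgroup. -/
lemma int_on_closure {B : Set V} {l : Dual ℚ V} (h : ∀ b ∈ B, ∃ n : ℤ, l b = n) :
    ∀ v ∈ AddSubgroup.closure B, ∃ n : ℤ, l v = n := by
  intro v hv
  induction hv using AddSubgroup.closure_induction with
  | mem x hx => exact h x hx
  | zero => exact ⟨0, by simp⟩
  | add x y _ _ hx hy =>
    obtain ⟨m, hm⟩ := hx
    obtain ⟨n, hn⟩ := hy
    exact ⟨m + n, by rw [map_add, hm, hn]; push_cast; ring⟩
  | neg x _ hx =>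
    obtain ⟨m, hm⟩ := hx
    exact ⟨-m, by rw [map_neg, hm]; push_cast; ring⟩

lemma int_of_dual {B : Set V} {l : Dual ℚ V} {β : V} (h1 : l β = 1)
    (h0 : ∀ b ∈ B, b ≠ β → l b = 0) : ∀ b ∈ B, ∃ n : ℤ, l b = n := by
  intro b hb
  by_cases h : b = β
  · exact ⟨1, by rw [h, h1]; simp⟩
  · exact ⟨0, by rw [h0 b hb h]; simp⟩

/-- Membership in the lattice of an independent set by coordinates. -/
lemma mem_closure_iff {B : Finset V} {l : V → Dual ℚ V}
    (h1 : ∀ β ∈ B, l β β = 1) (h0 : ∀ β ∈ B, ∀ b ∈ B, b ≠ β → l β b = 0) {v : V}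
    (hv : v ∈ span ℚ (B : Set V)) :
    v ∈ AddSubgroup.closure (B : Set V) ↔ ∀ β ∈ B, ∃ n : ℤ, l β v = n := by
  constructor
  · intro h β hβ
    exact int_on_closure (int_of_dual (h1 β hβ) (fun b hb hne => h0 β hβ b hb hne)) v h
  · intro h
    let P : V →ₗ[ℚ] V := ∑ β ∈ B, (l β).smulRight β
    have hP : ∀ x, P x = ∑ β ∈ B, l β x • β := by
      intro x
      simp only [P, LinearMap.sum_apply, LinearMap.smulRight_apply]
    have hid : ∀ x ∈ span ℚ (B : Set V), P x = x := by
      have : Set.EqOn P (LinearMap.id : V →ₗ[ℚ] V) (span ℚ (B : Set V)) := by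
        refine LinearMap.eqOn_span ?_
        intro x hx
        have hx' : x ∈ B := hx
        rw [hP, Finset.sum_eq_single_of_mem x hx']
        · rw [h1 x hx', one_smul, LinearMap.id_apply]
        · intro b hb hne
          rw [h0 b hb x hx' (Ne.symm hne), zero_smul]
      intro x hx
      exact this hx
    rw [← hid v hv, hP]
    refine AddSubgroup.sum_mem _ fun β hβ => ?_
    obtain ⟨n, hn⟩ := h β hβ
    rw [hn, Int.cast_smul_eq_zsmul]
    exact AddSubgroup.zsmul_mem _ (AddSubgroup.subset_closure hβ) n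

open Classical in
theorem umr : UmrS := by
  intro V _ _ c hc
  have hfin : (Es c).Finite := c.support.finite_toSet.subset fun v hv =>
    Finsupp.mem_support_iff.mpr hv.2
  -- the family of bases
  let F : Set (Set V) := {B | B ⊆ Es c ∧ LinearIndepOn ℚ id B ∧ Es c ⊆ span ℚ B}
  have hne : F.Nonempty := by
    obtain ⟨B, hB1, _, hB2, hB3⟩ := exists_linearIndepOn_id_extension
      (linearIndepOn_empty ℚ (id : V → V)) (Set.empty_subset (Es c))
    exact ⟨B, hB1, hB3, hB2⟩
  obtain ⟨B, hBF, hmin⟩ := WellFounded.has_min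
    (InvImage.wf (fun B : Set V => (Es c ∩ AddSubgroup.closure B).ncard) Nat.lt_wfRel.wf) F hne
  obtain ⟨hBE, hBI, hBS⟩ := hBF
  have hmin' : ∀ B₁ ∈ F, B₁ ⊆ Es c ∩ AddSubgroup.closure B →
      Es c ∩ AddSubgroup.closure B ⊆ AddSubgroup.closure B₁ := by
    intro B₁ hB₁ hsub v hv
    have h1 : Es c ∩ AddSubgroup.closure B₁ ⊆ Es c ∩ AddSubgroup.closure B := by
      refine Set.inter_subset_inter_right _ ?_
      exact (AddSubgroup.closure_le _).mpr fun x hx => (hsub hx).2
    have h2 : (Es c ∩ AddSubgroup.closure B : Set V).ncard ≤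
        (Es c ∩ AddSubgroup.closure B₁ : Set V).ncard := not_lt.mp (hmin B₁ hB₁)
    have h3 := Set.eq_of_subset_of_ncard_le h1 h2 (hfin.subset Set.inter_subset_left)
    rw [← h3] at hv
    exact hv.2
  have hBfin : B.Finite := hfin.subset hBE
  -- the restricted element
  have hEs : Es (c.filter fun v => v ∈ AddSubgroup.closure B) =
      Es c ∩ AddSubgroup.closure B := by
    ext v
    constructor
    · rintro ⟨h0, h1⟩
      rw [Finsupp.filter_apply] at h1
      by_cases h : v ∈ AddSubgroup.closure B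
      · rw [if_pos h] at h1
        exact ⟨⟨h0, h1⟩, h⟩
      · rw [if_neg h] at h1
        exact absurd rfl h1
    · rintro ⟨⟨h0, h1⟩, h⟩
      refine ⟨h0, ?_⟩
      rw [Finsupp.filter_apply, if_pos (SetLike.mem_coe.mp h)]
      exact h1
  have hBE' : B ⊆ Es c ∩ AddSubgroup.closure B := fun x hx =>
    ⟨hBE hx, AddSubgroup.subset_closure hx⟩
  refine ⟨c.filter fun v => v ∈ AddSubgroup.closure B, ?_, ?_, ?_, ?_⟩
  · -- non-negativity
    have hdual : ∀ β : V, ∃ l : Dual ℚ V, β ∈ B → l β = 1 ∧ ∀ b ∈ B, b ≠ β → l b = 0 := by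
      intro β
      by_cases h : β ∈ B
      · obtain ⟨l, hl⟩ := exists_dual hBI β h
        exact ⟨l, fun _ => hl⟩
      · exact ⟨0, fun h' => absurd h' h⟩
    choose l hl using hdual
    have h := np_filter_finset hc l hBfin.toFinset
    have heq : (c.filter fun v => v ∈ AddSubgroup.closure B) =
        c.filter fun v => ∀ b ∈ hBfin.toFinset, ∃ n : ℤ, l b v = n := by
      ext1 v
      by_cases hv : c v = 0
      · rw [Finsupp.filter_apply, Finsupp.filter_apply, hv]
        simp
      · have hvs : v ∈ span ℚ B := by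
          by_cases h0 : v = 0
          · rw [h0]
            exact zero_mem _
          · exact hBS ⟨h0, hv⟩
        have hiff := mem_closure_iff (B := hBfin.toFinset) (l := l)
          (fun β hβ => (hl β (hBfin.mem_toFinset.mp hβ)).1)
          (fun β hβ b hb hne => (hl β (hBfin.mem_toFinset.mp hβ)).2 b
            (hBfin.mem_toFinset.mp hb) hne) (v := v) (by rw [hBfin.coe_toFinset]; exact hvs)
        rw [hBfin.coe_toFinset] at hiff
        rw [Finsupp.filter_apply, Finsupp.filter_apply]
        by_cases hm : v ∈ AddSubgroup.closure B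
        · rw [if_pos hm, if_pos (hiff.mp hm)]
        · rw [if_neg hm, if_neg (fun h' => hm (hiff.mpr h'))]
    rw [heq]
    exact h
  · rw [Finsupp.filter_apply, if_pos (zero_mem _)]
  · -- unimodularity
    rw [hEs]
    intro B' hB' hI l β hβ hl1 hl0 v hv hvs
    by_cases hq : l v = 0
    · exact Or.inl hq
    right
    -- extend `B'`
    obtain ⟨B₂, hB₂E, hsub, hB₂S, hB₂I⟩ := exists_linearIndepOn_id_extension hI hB'
    have hβ₂ : β ∈ B₂ := hsub hβ
    obtain ⟨l', hl'1, hl'0⟩ := exists_dual hB₂I β hβ₂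
    have hEq : Set.EqOn l l' (span ℚ B') := by
      refine LinearMap.eqOn_span ?_
      intro b hb
      by_cases h : b = β
      · rw [h, hl1, hl'1]
      · rw [hl0 b hb h, hl'0 b (hsub hb) h]
    have hlv : l v = l' v := hEq hvs
    have hES : Es c ⊆ span ℚ B₂ := by
      have h1 : span ℚ B ≤ span ℚ B₂ := span_le.mpr (hBE'.trans hB₂S)
      exact fun x hx => h1 (hBS hx)
    have hF₂ : B₂ ∈ F := ⟨hB₂E.trans Set.inter_subset_left, hB₂I, hES⟩
    obtain ⟨n, hn⟩ := int_on_closure (int_of_dual hl'1 hl'0) v (hmin' B₂ hF₂ hB₂E hv)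
    -- exchange
    have hne0 : l' v ≠ 0 := by rw [← hlv]; exact hq
    have hvnot : v ∉ span ℚ (B₂ \ {β}) := by
      intro h
      have : Set.EqOn l' (0 : Dual ℚ V) (span ℚ (B₂ \ {β})) := by
        refine LinearMap.eqOn_span ?_
        intro b hb
        rw [hl'0 b hb.1 hb.2, LinearMap.zero_apply]
      exact hne0 (this h)
    have hB₃I : LinearIndepOn ℚ id (insert v (B₂ \ {β})) :=
      (hB₂I.mono Set.diff_subset).id_insert hvnot
    have hB₃E : insert v (B₂ \ {β}) ⊆ Es c ∩ AddSubgroup.closure B := by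
      intro x hx
      rcases hx with rfl | hx
      · exact hv
      · exact hB₂E hx.1
    have hβmem : β ∈ span ℚ (insert v (B₂ \ {β})) := by
      have hvs2 : v ∈ span ℚ B₂ := hB₂S hv
      have hins : B₂ = insert β (B₂ \ {β}) := by
        ext x
        by_cases hx : x = β
        · subst hx
          simp [hβ₂]
        · simp [hx]
      rw [hins, mem_span_insert] at hvs2
      obtain ⟨a, z, hz, hvz⟩ := hvs2
      have hz0 : l' z = 0 := by
        have : Set.EqOn l' (0 : Dual ℚ V) (span ℚ (B₂ \ {β})) := by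
          refine LinearMap.eqOn_span ?_
          intro b hb
          rw [hl'0 b hb.1 hb.2, LinearMap.zero_apply]
        exact this hz
      have ha : a = l' v := by
        rw [hvz, map_add, map_smul, hl'1, hz0]
        simp
      have ha0 : a ≠ 0 := by rw [ha]; exact hne0
      have hβe : β = a⁻¹ • (v - z) := by
        rw [hvz, add_sub_cancel_right, smul_smul, inv_mul_cancel₀ ha0, one_smul]
      have hmem : a⁻¹ • (v - z) ∈ span ℚ (insert v (B₂ \ {β})) :=
        smul_mem _ _ (sub_mem (subset_span (Set.mem_insert _ _))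
          (span_mono (Set.subset_insert _ _) hz))
      rw [← hβe] at hmem
      exact hmem
    have hB₃S : Es c ⊆ span ℚ (insert v (B₂ \ {β})) := by
      have h1 : span ℚ B₂ ≤ span ℚ (insert v (B₂ \ {β})) := by
        refine span_le.mpr fun x hx => ?_
        by_cases hxb : x = β
        · rw [hxb]
          exact hβmem
        · exact subset_span (Set.mem_insert_of_mem _ ⟨hx, hxb⟩)
      exact fun x hx => h1 (hES hx)
    have hF₃ : insert v (B₂ \ {β}) ∈ F := ⟨hB₃E.trans Set.inter_subset_left, hB₃I, hB₃S⟩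
    have hβcl : β ∈ AddSubgroup.closure (insert v (B₂ \ {β})) :=
      hmin' _ hF₃ hB₃E (hB₂E hβ₂)
    obtain ⟨m, hm⟩ := int_on_closure (l := (l' v)⁻¹ • l') (B := insert v (B₂ \ {β})) (by
      intro b hb
      rcases hb with rfl | hb
      · exact ⟨1, by rw [LinearMap.smul_apply, smul_eq_mul, inv_mul_cancel₀ hne0]; simp⟩
      · exact ⟨0, by rw [LinearMap.smul_apply, hl'0 b hb.1 hb.2]; simp⟩) β hβcl
    rw [LinearMap.smul_apply, hl'1, smul_eq_mul, mul_one] at hm
    rw [hn] at hm hne0
    have hnm : m * n = 1 := by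
      have : (m : ℚ) * (n : ℚ) = 1 := by
        rw [← hm, inv_mul_cancel₀ hne0]
      exact_mod_cast this
    have hn1 : n = 1 ∨ n = -1 := Int.isUnit_iff.mp (IsUnit.of_mul_eq_one_right m hnm)
    rw [hlv, hn]
    rcases hn1 with rfl | rfl
    · left; simp
    · right; simp
  · unfold rkc
    rw [hEs]
    have : span ℚ (Es c ∩ AddSubgroup.closure B : Set V) = span ℚ (Es c) := by
      refine le_antisymm (span_mono Set.inter_subset_left) ?_
      refine span_le.mpr fun x hx => ?_
      exact span_mono hBE' (hBS hx)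
    rw [this]

end Pool.Agent.B5.Nr.H84
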